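import Pool.Agent.Lib_helper89.AD.Num
import Pool.Agent.Lib_helper65.TVC.Final

/-!
# AD (MP_85e36e_co): exponentially few three-valued decimations, the theorem
-/

set_option autoImplicit false

namespace Pool.Agent.AD

open Finset Pool.Agent.TV

theorem crosscorr_eq (n : ℕ) (d : ℕ) (hd : 0 < d) [Fintype (GaloisField 2 n)]
    (c : GaloisField 2 n) : ∑ᶠ x ∈ {x : GaloisField 2 n | x ≠ 0},
      (-1 : ℤ) ^ (Algebra.trace (ZMod 2) (GaloisField 2 n) (c * x - x ^ d)).val =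
      W (GaloisField 2 n) d c - 1 := by
  classical
  have h1 : ∀ x : GaloisField 2 n,
      (-1 : ℤ) ^ (Algebra.trace (ZMod 2) (GaloisField 2 n) (c * x - x ^ d)).val =
      if Algebra.trace (ZMod 2) (GaloisField 2 n) (x ^ d + c * x) = 0 then 1 else -1 := by
    intro x
    rw [BRx_sign, CharTwo.sub_eq_add, add_comm]
  simp only [h1]
  have h2 : ∑ᶠ x ∈ {x : GaloisField 2 n | x ≠ 0},
      (if Algebra.trace (ZMod 2) (GaloisField 2 n) (x ^ d + c * x) = 0 then (1 : ℤ) else -1) =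
      ∑ x ∈ Finset.univ.filter (fun x : GaloisField 2 n => x ≠ 0),
      (if Algebra.trace (ZMod 2) (GaloisField 2 n) (x ^ d + c * x) = 0 then (1 : ℤ) else -1) := by
    rw [← finsum_mem_coe_finset]
    congr 1
    ext x
    simp
  rw [h2]
  unfold W
  rw [← Finset.sum_filter_add_sum_filter_not Finset.univ (fun x : GaloisField 2 n => x ≠ 0)]
  have h3 : Finset.univ.filter (fun x : GaloisField 2 n => ¬ x ≠ 0) = {0} := by
    ext x; simp
  rw [h3, Finset.sum_singleton]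
  simp [zero_pow hd.ne']

theorem W_zero (F : Type) [Field F] [Fintype F] [Algebra (ZMod 2) F] (n : ℕ) (hn2 : 2 ≤ n)
    (hF : Fintype.card F = 2 ^ n) (d : ℕ) (hd0 : d ≠ 0) (hd : Nat.Coprime d (2 ^ n - 1)) :
    W F d 0 = 0 := by
  haveI : CharP F 2 := charP_of_injective_algebraMap (algebraMap (ZMod 2) F).injective 2
  have hψ : katzChi F ≠ 1 := by
    intro h
    obtain ⟨x, hx⟩ := Algebra.trace_surjective (ZMod 2) F 1
    have h1 : katzChi F x = 1 := by rw [h]; rfl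
    have h2 : katzChi F x = -1 := by
      show (if Algebra.trace (ZMod 2) F x = 0 then (1:ℤ) else -1) = -1
      rw [hx]; simp
    rw [h2] at h1
    norm_num at h1
  have h1 : W F d 0 = ∑ x : F, katzChi F (x ^ d) := by
    unfold W
    refine Finset.sum_congr rfl fun x _ => ?_
    rw [zero_mul, add_zero]
    rfl
  have hbij : Function.Bijective (fun x : F => x ^ d) := GC_bij F hn2 hF hd0 hd
  rw [h1, hbij.sum_comp (fun y => katzChi F y)]
  exact AddChar.sum_eq_zero_of_ne_one hψ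

theorem count (s : ℕ) (N : ℕ) [NeZero N] (P : ℕ → Prop)
    (hP : ∀ d : ℕ, d < N → P d → ∀ j z : ℕ, ¬ N ∣ j → N ∣ z + d * j → s ≤ bw j + bw z) :
    Set.ncard {d : ℕ | d < N ∧ P d} ≤ (Bad N s).card := by
  classical
  have h1 : {d : ℕ | d < N ∧ P d} = (((range N).filter P : Finset ℕ) : Set ℕ) := by
    ext d
    simp
  rw [h1, Set.ncard_coe_finset]
  apply Finset.card_le_card_of_injOn (fun d : ℕ => (d : ZMod N))
  · intro d hd
    obtain ⟨hd1, hd2⟩ := mem_filter.mp (mem_coe.mp hd)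
    rw [mem_range] at hd1
    refine mem_coe.mpr (mem_filter.mpr ⟨mem_univ _, ?_⟩)
    intro j z hj hz
    refine hP d hd1 hd2 j z hj ?_
    rw [← ZMod.natCast_eq_zero_iff]
    push_cast
    exact hz
  · intro d hd d' hd' h
    have e1 := mem_range.mp (mem_filter.mp (mem_coe.mp hd)).1
    have e2 := mem_range.mp (mem_filter.mp (mem_coe.mp hd')).1
    have h2 := (ZMod.natCast_eq_natCast_iff' d d' N).mp h
    rwa [Nat.mod_eq_of_lt e1, Nat.mod_eq_of_lt e2] at h2

theorem final : ∃ κ : ℝ, 0 < κ ∧ ∃ n₀ : ℕ, ∀ n : ℕ, n₀ ≤ n →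
    (Set.ncard {d : ℕ | d < 2 ^ n - 1 ∧ Nat.Coprime d (2 ^ n - 1) ∧
        Set.ncard {v : ℤ | ∃ c : GaloisField 2 n, c ≠ 0 ∧
          v = ∑ᶠ x ∈ {x : GaloisField 2 n | x ≠ 0},
            (-1 : ℤ) ^ (Algebra.trace (ZMod 2) (GaloisField 2 n) (c * x - x ^ d)).val} = 3} : ℝ) ≤
      (2 : ℝ) ^ (-κ * n) * Nat.totient (2 ^ n - 1) ∧
    (Set.ncard {d : ℕ | d < 2 ^ n - 1 ∧ Nat.Coprime d (2 ^ n - 1) ∧
        ∀ c : GaloisField 2 n, c ≠ 0 → (2 : ℤ) ^ (499 * n / 1000) ∣
          1 + ∑ᶠ x ∈ {x : GaloisField 2 n | x ≠ 0},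
            (-1 : ℤ) ^ (Algebra.trace (ZMod 2) (GaloisField 2 n) (c * x - x ^ d)).val} : ℝ) ≤
      (2 : ℝ) ^ (-κ * n) * Nat.totient (2 ^ n - 1) := by
  obtain ⟨n₀, hn0, hb⟩ := bad_small
  refine ⟨1 / 2 ^ 21, by positivity, n₀, ?_⟩
  intro n hn
  have hn1 : 0 < n := by omega
  have h4 : 2 ^ 2 ≤ 2 ^ n := Nat.pow_le_pow_right (by norm_num) (by omega)
  haveI : NeZero (2 ^ n - 1) := ⟨by omega⟩
  letI : Fintype (GaloisField 2 n) := Fintype.ofFinite _
  have hF : Fintype.card (GaloisField 2 n) = 2 ^ n := by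
    rw [← Nat.card_eq_fintype_card]
    exact GaloisField.card 2 n hn1.ne'
  have hd0 : ∀ d : ℕ, Nat.Coprime d (2 ^ n - 1) → 0 < d := by
    intro d hd
    rcases Nat.eq_zero_or_pos d with rfl | h
    · exfalso
      rw [Nat.coprime_zero_left] at hd
      omega
    · exact h
  have hexp : (2 : ℝ) ^ (-(n : ℝ) / 2 ^ 21) = 2 ^ (-(1 / 2 ^ 21) * (n : ℝ)) := by
    congr 1
    ring
  have hb' := hb n hn (499 * n / 1000) le_rfl (2 ^ n - 1) rfl
  rw [hexp] at hb'
  constructor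
  · refine le_trans ?_ hb'
    exact_mod_cast count (499 * n / 1000) (2 ^ n - 1)
      (fun d => Nat.Coprime d (2 ^ n - 1) ∧
        Set.ncard {v : ℤ | ∃ c : GaloisField 2 n, c ≠ 0 ∧
          v = ∑ᶠ x ∈ {x : GaloisField 2 n | x ≠ 0},
            (-1 : ℤ) ^ (Algebra.trace (ZMod 2) (GaloisField 2 n) (c * x - x ^ d)).val} = 3) (by
        rintro d _ ⟨hd, h3⟩ j z hj hz
        obtain ⟨_, hW⟩ := bridge n hn1 d (hd0 d hd) h3
        have hV := V_of_three (GaloisField 2 n) n hn1 hF d hd hW j z hj hz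
        omega)
  · refine le_trans ?_ hb'
    exact_mod_cast count (499 * n / 1000) (2 ^ n - 1)
      (fun d => Nat.Coprime d (2 ^ n - 1) ∧
        ∀ c : GaloisField 2 n, c ≠ 0 → (2 : ℤ) ^ (499 * n / 1000) ∣
          1 + ∑ᶠ x ∈ {x : GaloisField 2 n | x ≠ 0},
            (-1 : ℤ) ^ (Algebra.trace (ZMod 2) (GaloisField 2 n) (c * x - x ^ d)).val) (by
        rintro d _ ⟨hd, h3⟩ j z hj hz
        refine stickelberger (GaloisField 2 n) n hn1 hF d hd _ ?_ j z hj hz
        intro a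
        by_cases ha : a = 0
        · rw [ha, W_zero (GaloisField 2 n) n (by omega) hF d (hd0 d hd).ne' hd]
          exact dvd_zero _
        · have := h3 a ha
          rw [crosscorr_eq n d (hd0 d hd)] at this
          rwa [add_sub_cancel] at this)

end Pool.Agent.AD
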