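import Pool.Agent.Lib_helper65.TVC.NH
import Pool.Agent.Lib_helper65.TVC.BWA

/-!
# AD (MP_85e36e_co): sparse numbers and heavy numbers

`Js w`: the numbers with `w` blocks of 64 binary digits, exactly one digit in each block is one.
-/

set_option autoImplicit false

namespace Pool.Agent.AD

open Finset Pool.Agent.TV

/-- numbers with `w` blocks of 64 digits with exactly one one each -/
def Js : ℕ → Finset ℕ
  | 0 => {0}
  | w + 1 => (range 64 ×ˢ Js w).image fun p => 2 ^ p.1 + 2 ^ 64 * p.2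

theorem mem_Js {w j : ℕ} : j ∈ Js (w + 1) ↔ ∃ p < 64, ∃ l ∈ Js w, j = 2 ^ p + 2 ^ 64 * l := by
  have e : Js (w + 1) = (range 64 ×ˢ Js w).image fun p => 2 ^ p.1 + 2 ^ 64 * p.2 := rfl
  rw [e]
  simp only [mem_image, mem_product, mem_range, Prod.exists]
  constructor
  · rintro ⟨p, l, ⟨h1, h2⟩, h3⟩
    exact ⟨p, h1, l, h2, h3.symm⟩
  · rintro ⟨p, h1, l, h2, h3⟩
    exact ⟨p, l, ⟨h1, h2⟩, h3.symm⟩

theorem two_pow_lt64 {p : ℕ} (hp : p < 64) : 2 ^ p < 2 ^ 64 :=
  Nat.pow_lt_pow_right (by norm_num) hp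

theorem Js_card (w : ℕ) : (Js w).card = 64 ^ w := by
  induction w with
  | zero => simp [Js]
  | succ w ih =>
    unfold Js
    rw [card_image_of_injOn, card_product, card_range, ih, pow_succ, mul_comm]
    rintro ⟨p, l⟩ h1 ⟨p', l'⟩ h2 h
    simp only [coe_product, Set.mem_prod, mem_coe, mem_range] at h1 h2
    have hp := two_pow_lt64 h1.1
    have hp' := two_pow_lt64 h2.1
    simp only at h
    have e1 : (2 ^ p + 2 ^ 64 * l) % 2 ^ 64 = (2 ^ p' + 2 ^ 64 * l') % 2 ^ 64 := by rw [h]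
    rw [Nat.add_mul_mod_self_left, Nat.add_mul_mod_self_left, Nat.mod_eq_of_lt hp,
      Nat.mod_eq_of_lt hp'] at e1
    have e2 : p = p' := Nat.pow_right_injective le_rfl e1
    have e3 : l = l' := by
      rw [e1] at h
      have := Nat.add_left_cancel h
      exact Nat.eq_of_mul_eq_mul_left (by positivity) this
    rw [e2, e3]

theorem Js_lt {w j : ℕ} (hj : j ∈ Js w) : j < 2 ^ (64 * w) := by
  induction w generalizing j with
  | zero => simp [Js] at hj; simp [hj]
  | succ w ih =>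
    obtain ⟨p, hp, l, hl, rfl⟩ := mem_Js.mp hj
    have h1 := ih hl
    have h2 := two_pow_lt64 hp
    have h3 : 2 ^ (64 * (w + 1)) = 2 ^ 64 * 2 ^ (64 * w) := by rw [← pow_add]; congr 1; ring
    rw [h3]
    have h4 : 2 ^ 64 * (l + 1) ≤ 2 ^ 64 * 2 ^ (64 * w) := Nat.mul_le_mul_left _ h1
    calc 2 ^ p + 2 ^ 64 * l < 2 ^ 64 + 2 ^ 64 * l := by omega
      _ = 2 ^ 64 * (l + 1) := by ring
      _ ≤ _ := h4

theorem Js_bw {w j : ℕ} (hj : j ∈ Js w) : bw j = w := by
  induction w generalizing j with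
  | zero => simp [Js] at hj; simp [hj, bw_zero]
  | succ w ih =>
    obtain ⟨p, hp, l, hl, rfl⟩ := mem_Js.mp hj
    rw [bw_low_high 64 _ _ (two_pow_lt64 hp), ih hl, NH_bw_two_pow]
    ring

theorem Js_div {u v j : ℕ} (hj : j ∈ Js (v + u)) : j / 2 ^ (64 * u) ∈ Js v := by
  induction u generalizing j with
  | zero => simpa using hj
  | succ u ih =>
    obtain ⟨p, hp, l, hl, rfl⟩ := mem_Js.mp (show _ ∈ Js ((v + u) + 1) from hj)
    have h1 := ih hl
    have h2 : (2 ^ p + 2 ^ 64 * l) / 2 ^ (64 * (u + 1)) = l / 2 ^ (64 * u) := by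
      rw [show 64 * (u + 1) = 64 + 64 * u by ring, pow_add, ← Nat.div_div_eq_div_mul,
        Nat.add_mul_div_left _ _ (by positivity), Nat.div_eq_of_lt (two_pow_lt64 hp), zero_add]
    rw [h2]
    exact h1

/-- few sparse numbers are divisible by a large number -/
theorem Js_dvd {u v h : ℕ} (hh : 2 ^ (64 * u) ≤ h) :
    ((Js (v + u)).filter fun j => h ∣ j).card ≤ 64 ^ v := by
  rw [← Js_card v]
  apply Finset.card_le_card_of_injOn (fun j => j / 2 ^ (64 * u))
  · intro j hj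
    exact Js_div (mem_filter.mp (mem_coe.mp hj)).1
  · intro j hj j' hj' e
    have h1 := (mem_filter.mp (mem_coe.mp hj)).2
    have h2 := (mem_filter.mp (mem_coe.mp hj')).2
    simp only at e
    have hpos : 0 < 2 ^ (64 * u) := by positivity
    have e1 := Nat.div_add_mod j (2 ^ (64 * u))
    have e2 := Nat.div_add_mod j' (2 ^ (64 * u))
    have r1 := Nat.mod_lt j hpos
    have r2 := Nat.mod_lt j' hpos
    rw [e] at e1
    have h3 : (h : ℤ) ∣ (j : ℤ) - j' := by
      exact dvd_sub (by exact_mod_cast h1) (by exact_mod_cast h2)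
    have h4 : |(j : ℤ) - j'| < h := by
      rw [abs_lt]
      have : (2 : ℤ) ^ (64 * u) ≤ h := by exact_mod_cast hh
      have e1' : (2 : ℤ) ^ (64 * u) * ((j' / 2 ^ (64 * u) : ℕ) : ℤ) + ((j % 2 ^ (64 * u) : ℕ) : ℤ) = j := by
        exact_mod_cast e1
      have e2' : (2 : ℤ) ^ (64 * u) * ((j' / 2 ^ (64 * u) : ℕ) : ℤ) + ((j' % 2 ^ (64 * u) : ℕ) : ℤ) = j' := by
        exact_mod_cast e2
      have r1' : ((j % 2 ^ (64 * u) : ℕ) : ℤ) < 2 ^ (64 * u) := by exact_mod_cast r1
      have r2' : ((j' % 2 ^ (64 * u) : ℕ) : ℤ) < 2 ^ (64 * u) := by exact_mod_cast r2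
      have p1 : (0 : ℤ) ≤ ((j % 2 ^ (64 * u) : ℕ) : ℤ) := by positivity
      have p2 : (0 : ℤ) ≤ ((j' % 2 ^ (64 * u) : ℕ) : ℤ) := by positivity
      constructor <;> linarith
    have h5 := Int.eq_zero_of_abs_lt_dvd h3 h4
    have : (j : ℤ) = j' := by linarith
    exact_mod_cast this

/-- the generating function of the binary weight -/
theorem sum_bw (t : ℝ) (m : ℕ) : ∑ z ∈ range (2 ^ m), t ^ bw z = (1 + t) ^ m := by
  induction m with
  | zero => simp [bw_zero]
  | succ m ih =>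
    have h1 : 2 ^ (m + 1) = 2 ^ m + 2 ^ m := by ring
    rw [h1, Finset.sum_range_add]
    have h2 : ∑ x ∈ range (2 ^ m), t ^ bw (2 ^ m + x) = t * ∑ z ∈ range (2 ^ m), t ^ bw z := by
      rw [mul_sum]
      apply sum_congr rfl
      intro x hx
      have e : 2 ^ m + x = x + 2 ^ m * 1 := by ring
      rw [e, bw_low_high m x 1 (mem_range.mp hx), pow_add]
      have : bw 1 = 1 := by have := NH_bw_two_pow 0; simpa using this
      rw [this]
      ring
    rw [h2, ih]
    ring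

/-- few numbers are heavy -/
theorem heavy_card (t : ℝ) (ht : 1 ≤ t) (m T : ℕ) :
    (((range (2 ^ m)).filter fun z => T ≤ bw z).card : ℝ) * t ^ T ≤ (1 + t) ^ m := by
  rw [← sum_bw]
  calc (((range (2 ^ m)).filter fun z => T ≤ bw z).card : ℝ) * t ^ T
      = ∑ z ∈ (range (2 ^ m)).filter (fun z => T ≤ bw z), t ^ T := by
        rw [sum_const, nsmul_eq_mul]
    _ ≤ ∑ z ∈ (range (2 ^ m)).filter (fun z => T ≤ bw z), t ^ bw z := by
        apply sum_le_sum
        intro z hz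
        exact pow_le_pow_right₀ ht (mem_filter.mp hz).2
    _ ≤ ∑ z ∈ range (2 ^ m), t ^ bw z := by
        apply sum_le_sum_of_subset_of_nonneg (filter_subset _ _)
        intro z _ _
        positivity

end Pool.Agent.AD
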