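import Pool.Agent.Lib_helper89.AD.Four
import Pool.Agent.Lib_helper89.AD.Jset

/-!
# AD (MP_85e36e_co): the first moment of the heavy solutions, and the number of bad multipliers
-/

set_option autoImplicit false

namespace Pool.Agent.AD

open Finset Pool.Agent.TV

variable {N : ℕ} [NeZero N]

/-- the heavy numbers below `2 ^ m` -/
def Hv (m T : ℕ) : Finset ℕ := (range (2 ^ m)).filter fun z => T ≤ bw z

/-- number of heavy solutions -/
def Rh (J : Finset ℕ) (K T : ℕ) (d : ZMod N) : ℕ :=
  ((J ×ˢ (range K ×ˢ range K)).filter fun p : ℕ × ℕ × ℕ =>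
    T ≤ bw (p.2.1 + p.2.2) ∧
    ((p.2.1 + p.2.2 : ℕ) : ZMod N) + d * ((p.1 : ℕ) : ZMod N) = 0).card

theorem sum_window (K : ℕ) (f : ℕ → ℕ) :
    ∑ p ∈ range K ×ˢ range K, f (p.1 + p.2) ≤ K * ∑ z ∈ range (2 * K), f z := by
  rw [sum_product]
  calc ∑ a ∈ range K, ∑ b ∈ range K, f (a + b) ≤ ∑ a ∈ range K, ∑ z ∈ range (2 * K), f z := by
        apply sum_le_sum
        intro a ha
        rw [← sum_image (f := f) (g := fun b => a + b) (fun x _ y _ h => Nat.add_left_cancel h)]
        apply sum_le_sum_of_subset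
        intro z hz
        obtain ⟨b, hb, rfl⟩ := mem_image.mp hz
        rw [mem_range] at ha hb ⊢
        omega
    _ = K * ∑ z ∈ range (2 * K), f z := by rw [sum_const, card_range, smul_eq_mul]

theorem first_moment (u v m T : ℕ) (hm : 1 ≤ m) (hT : 1 ≤ T) :
    ∑ d : ZMod N, Rh (Js (v + u)) (2 ^ (m - 1)) T d ≤
      2 ^ (m - 1) * (64 ^ (v + u) * (2 ^ (64 * u) * (Hv m T).card) +
        N.divisors.card * 64 ^ v * 2 ^ m) := by
  classical
  have hN : 0 < N := Nat.pos_of_ne_zero (NeZero.ne N)
  obtain ⟨K, hK⟩ : ∃ K, K = 2 ^ (m - 1) := ⟨_, rfl⟩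
  have hK2 : 2 * K = 2 ^ m := by
    rw [hK, ← pow_succ']
    congr 1
    omega
  obtain ⟨J, hJ⟩ : ∃ J, J = Js (v + u) := ⟨_, rfl⟩
  rw [← hK, ← hJ]
  have h1 : ∑ d : ZMod N, Rh J K T d = ∑ p ∈ J ×ˢ (range K ×ˢ range K),
      if T ≤ bw (p.2.1 + p.2.2) then (univ.filter fun d : ZMod N =>
        ((p.2.1 + p.2.2 : ℕ) : ZMod N) + d * ((p.1 : ℕ) : ZMod N) = 0).card else 0 := by
    unfold Rh
    simp only [card_filter]
    rw [sum_comm]
    apply sum_congr rfl
    intro p _
    by_cases h : T ≤ bw (p.2.1 + p.2.2) <;> simp [h]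
  have h2 : ∀ j z : ℕ, (univ.filter fun d : ZMod N =>
        ((z : ℕ) : ZMod N) + d * ((j : ℕ) : ZMod N) = 0).card ≤
      if Nat.gcd j N ∣ z then Nat.gcd j N else 0 := by
    intro j z
    split_ifs with hd
    · exact sol_card j _
    · rw [Nat.le_zero, card_eq_zero, filter_eq_empty_iff]
      intro t _ ht
      apply hd
      have := sol_dvd (N := N) j (z : ℤ) t (by push_cast; exact ht)
      exact_mod_cast this
  rw [h1, sum_product]
  -- the contribution of one `j`
  have h3 : ∀ j ∈ J, ∑ q ∈ range K ×ˢ range K,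
      (if T ≤ bw (q.1 + q.2) then (univ.filter fun d : ZMod N =>
        ((q.1 + q.2 : ℕ) : ZMod N) + d * ((j : ℕ) : ZMod N) = 0).card else 0) ≤
      K * (2 ^ (64 * u) * (Hv m T).card + if 2 ^ (64 * u) < Nat.gcd j N then 2 ^ m else 0) := by
    intro j _
    obtain ⟨g, hg⟩ : ∃ g, g = Nat.gcd j N := ⟨_, rfl⟩
    have hg0 : 0 < g := hg ▸ Nat.gcd_pos_of_pos_right j hN
    calc ∑ q ∈ range K ×ˢ range K,
      (if T ≤ bw (q.1 + q.2) then (univ.filter fun d : ZMod N =>
        ((q.1 + q.2 : ℕ) : ZMod N) + d * ((j : ℕ) : ZMod N) = 0).card else 0)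
        ≤ ∑ q ∈ range K ×ˢ range K,
          (fun z => if T ≤ bw z then (if g ∣ z then g else 0) else 0) (q.1 + q.2) := by
          apply sum_le_sum
          intro q _
          simp only
          split_ifs with h4
          · have := h2 j (q.1 + q.2)
            rw [← hg] at this
            rename_i h5
            rwa [if_pos h5] at this
          · have := h2 j (q.1 + q.2)
            rw [← hg] at this
            rename_i h5
            rwa [if_neg h5] at this
          · exact le_refl 0
      _ ≤ K * ∑ z ∈ range (2 * K), (if T ≤ bw z then (if g ∣ z then g else 0) else 0) :=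
          sum_window K (fun z => if T ≤ bw z then (if g ∣ z then g else 0) else 0)
      _ ≤ K * (2 ^ (64 * u) * (Hv m T).card + if 2 ^ (64 * u) < Nat.gcd j N then 2 ^ m else 0) := by
          apply Nat.mul_le_mul_left
          rw [hK2, ← hg]
          by_cases h4 : 2 ^ (64 * u) < g
          · rw [if_pos h4]
            -- large gcd
            have h5 : ∑ z ∈ range (2 ^ m), (if T ≤ bw z then (if g ∣ z then g else 0) else 0) ≤
                ∑ z ∈ (range (2 ^ m)).filter (fun z => 0 < z ∧ g ∣ z), g := by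
              rw [sum_filter]
              apply sum_le_sum
              intro z _
              by_cases h6 : T ≤ bw z
              · have h7 : 0 < z := by
                  rcases Nat.eq_zero_or_pos z with h | h
                  · rw [h, bw_zero] at h6; omega
                  · exact h
                simp [h6, h7]
              · simp [h6]
            have h6 : ((range (2 ^ m)).filter (fun z => 0 < z ∧ g ∣ z)).card ≤ 2 ^ m / g := by
              calc ((range (2 ^ m)).filter (fun z => 0 < z ∧ g ∣ z)).card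
                  ≤ (Icc 1 (2 ^ m / g)).card := by
                    apply Finset.card_le_card_of_injOn (fun b => b / g)
                    · intro b hb
                      obtain ⟨hb1, hb2, hb3⟩ := mem_filter.mp (mem_coe.mp hb)
                      rw [mem_range] at hb1
                      simp only [coe_Icc, Set.mem_Icc]
                      constructor
                      · exact Nat.div_pos (Nat.le_of_dvd hb2 hb3) hg0
                      · exact Nat.div_le_div_right hb1.le
                    · intro b hb b' hb' e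
                      have e1 := (mem_filter.mp (mem_coe.mp hb)).2.2
                      have e2 := (mem_filter.mp (mem_coe.mp hb')).2.2
                      rw [← Nat.div_mul_cancel e1, ← Nat.div_mul_cancel e2]
                      simp only at e
                      rw [e]
                _ = 2 ^ m / g := by rw [Nat.card_Icc, Nat.add_sub_cancel]
            calc _ ≤ _ := h5
              _ = ((range (2 ^ m)).filter (fun z => 0 < z ∧ g ∣ z)).card * g := by
                  rw [sum_const, smul_eq_mul]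
              _ ≤ 2 ^ m / g * g := Nat.mul_le_mul_right _ h6
              _ ≤ 2 ^ m := Nat.div_mul_le_self _ _
              _ ≤ _ := Nat.le_add_left _ _
          · rw [if_neg h4, add_zero, ← sum_filter]
            calc ∑ z ∈ (range (2 ^ m)).filter (fun z => T ≤ bw z), (if g ∣ z then g else 0)
                ≤ ∑ z ∈ (range (2 ^ m)).filter (fun z => T ≤ bw z), 2 ^ (64 * u) := by
                  apply sum_le_sum
                  intro z _
                  split_ifs
                  · exact not_lt.mp h4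
                  · exact Nat.zero_le _
              _ = 2 ^ (64 * u) * (Hv m T).card := by
                  rw [sum_const, smul_eq_mul, mul_comm]
                  rfl
  calc _ ≤ ∑ j ∈ J, K * (2 ^ (64 * u) * (Hv m T).card +
        if 2 ^ (64 * u) < Nat.gcd j N then 2 ^ m else 0) := sum_le_sum h3
    _ = K * (J.card * (2 ^ (64 * u) * (Hv m T).card) +
        (J.filter fun j => 2 ^ (64 * u) < Nat.gcd j N).card * 2 ^ m) := by
        rw [← mul_sum, sum_add_distrib, sum_const, smul_eq_mul, ← sum_filter, sum_const,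
          smul_eq_mul]
    _ ≤ K * (64 ^ (v + u) * (2 ^ (64 * u) * (Hv m T).card) +
        N.divisors.card * 64 ^ v * 2 ^ m) := by
        apply Nat.mul_le_mul_left
        apply Nat.add_le_add
        · rw [hJ, Js_card]
        · apply Nat.mul_le_mul_right
          calc (J.filter fun j => 2 ^ (64 * u) < Nat.gcd j N).card
              ≤ ((N.divisors.filter fun h => 2 ^ (64 * u) < h).biUnion
                  fun h => J.filter fun j => h ∣ j).card := by
                apply card_le_card
                intro j hj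
                obtain ⟨hj1, hj2⟩ := mem_filter.mp hj
                rw [mem_biUnion]
                exact ⟨Nat.gcd j N, mem_filter.mpr ⟨Nat.mem_divisors.mpr
                  ⟨Nat.gcd_dvd_right j N, hN.ne'⟩, hj2⟩, mem_filter.mpr ⟨hj1, Nat.gcd_dvd_left j N⟩⟩
            _ ≤ ∑ h ∈ N.divisors.filter (fun h => 2 ^ (64 * u) < h),
                  (J.filter fun j => h ∣ j).card := card_biUnion_le
            _ ≤ ∑ h ∈ N.divisors.filter (fun h => 2 ^ (64 * u) < h), 64 ^ v := by
                apply sum_le_sum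
                intro h hh
                rw [hJ]
                exact Js_dvd (mem_filter.mp hh).2.le
            _ = (N.divisors.filter (fun h => 2 ^ (64 * u) < h)).card * 64 ^ v := by
                rw [sum_const, smul_eq_mul]
            _ ≤ N.divisors.card * 64 ^ v :=
                Nat.mul_le_mul_right _ (card_filter_le _ _)

open Classical in
/-- the multipliers `d` for which all solutions of `z + d j = 0` have weight at least `s` -/
noncomputable def Bad (N : ℕ) [NeZero N] (s : ℕ) : Finset (ZMod N) :=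
  univ.filter fun d : ZMod N => ∀ j z : ℕ, ¬ N ∣ j →
    ((z : ℕ) : ZMod N) + d * ((j : ℕ) : ZMod N) = 0 → s ≤ bw j + bw z

theorem bad_card (u v m T s : ℕ) (hm : 1 ≤ m) (hT : 1 ≤ T) (hw : 1 ≤ v + u)
    (hN64 : 2 ^ (64 * (v + u)) ≤ N) (hs : v + u + T ≤ s) :
    ((Bad N s).card : ℝ) ≤
      4 * (N : ℝ) ^ 3 * N.divisors.card / ((2 : ℝ) ^ (m - 1) ) ^ 2 / 64 ^ (v + u) +
      (2 * (N : ℝ) * 2 ^ (64 * u) * (Hv m T).card / 2 ^ (m - 1) +
        4 * (N : ℝ) * N.divisors.card / 64 ^ u) := by
  classical
  have hN : 0 < N := Nat.pos_of_ne_zero (NeZero.ne N)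
  have hNr : (0 : ℝ) < N := by exact_mod_cast hN
  obtain ⟨K, hK⟩ : ∃ K : ℕ, K = 2 ^ (m - 1) := ⟨_, rfl⟩
  have hKr : (2 : ℝ) ^ (m - 1) = K := by rw [hK]; push_cast; rfl
  have hK0 : (0 : ℝ) < K := by rw [← hKr]; positivity
  have hK2 : (2 : ℝ) ^ m = 2 * K := by
    rw [← hKr, ← pow_succ']
    congr 1
    omega
  obtain ⟨J, hJ⟩ : ∃ J, J = Js (v + u) := ⟨_, rfl⟩
  have hJc : (J.card : ℝ) = 64 ^ (v + u) := by rw [hJ, Js_card]; push_cast; rfl
  have hJ0 : (0 : ℝ) < J.card := by rw [hJc]; positivity
  rw [hKr]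
  -- the exceptional set
  obtain ⟨X, hX⟩ : ∃ X : Finset (ZMod N), X = univ.filter fun d : ZMod N =>
    (K : ℝ) ^ 2 * J.card / 2 ≤ |(N : ℝ) * (Rc J K d : ℝ) - (K : ℝ) ^ 2 * J.card| := ⟨_, rfl⟩
  have hsm := second_moment (N := N) J (fun j hj => lt_of_lt_of_le (Js_lt (hJ ▸ hj)) hN64) K
  have hXc : (X.card : ℝ) ≤ 4 * (N : ℝ) ^ 3 * N.divisors.card / (K : ℝ) ^ 2 / 64 ^ (v + u) := by
    have h1 : (X.card : ℝ) * ((K : ℝ) ^ 2 * J.card / 2) ^ 2 ≤
        (N : ℝ) ^ 3 * (K : ℝ) ^ 2 * J.card * N.divisors.card := by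
      refine le_trans ?_ hsm
      calc (X.card : ℝ) * ((K : ℝ) ^ 2 * J.card / 2) ^ 2
          = ∑ d ∈ X, ((K : ℝ) ^ 2 * J.card / 2) ^ 2 := by rw [sum_const, nsmul_eq_mul]
        _ ≤ ∑ d ∈ X, ((N : ℝ) * (Rc J K d : ℝ) - (K : ℝ) ^ 2 * J.card) ^ 2 := by
            apply sum_le_sum
            intro d hd
            rw [← sq_abs ((N : ℝ) * (Rc J K d : ℝ) - (K : ℝ) ^ 2 * J.card)]
            apply pow_le_pow_left₀ (by positivity)
            rw [hX] at hd
            exact (mem_filter.mp hd).2
        _ ≤ _ := by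
            apply sum_le_sum_of_subset_of_nonneg (subset_univ _)
            intro d _ _
            positivity
    rw [← hJc, div_div, le_div_iff₀ (by positivity)]
    have h2 : (X.card : ℝ) * ((K : ℝ) ^ 2 * J.card) * ((K : ℝ) ^ 2 * J.card) ≤
        4 * (N : ℝ) ^ 3 * N.divisors.card * ((K : ℝ) ^ 2 * J.card) := by nlinarith [h1]
    exact le_of_mul_le_mul_right h2 (by positivity)
  -- the other bad ones
  have hfm := first_moment (N := N) u v m T hm hT
  rw [← hK, ← hJ] at hfm
  have hRh : ∀ d ∈ Bad N s, Rc J K d ≤ Rh J K T d := by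
    intro d hd
    have hd' := (mem_filter.mp hd).2
    apply card_le_card
    intro p hp
    obtain ⟨hp1, hp2⟩ := mem_filter.mp hp
    refine mem_filter.mpr ⟨hp1, ?_, hp2⟩
    have hpJ : p.1 ∈ Js (v + u) := hJ ▸ (mem_product.mp hp1).1
    have h1 : ¬ N ∣ p.1 := by
      intro h2
      have h3 : p.1 < N := lt_of_lt_of_le (Js_lt hpJ) hN64
      have h4 := Nat.eq_zero_of_dvd_of_lt h2 h3
      have h5 := Js_bw hpJ
      rw [h4, bw_zero] at h5
      omega
    have h6 := hd' p.1 (p.2.1 + p.2.2) h1 hp2
    rw [Js_bw hpJ] at h6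
    omega
  obtain ⟨Y, hY⟩ : ∃ Y : Finset (ZMod N), Y = Bad N s \ X := ⟨_, rfl⟩
  have hYc : (Y.card : ℝ) ≤ 2 * (N : ℝ) * 2 ^ (64 * u) * (Hv m T).card / K +
        4 * (N : ℝ) * N.divisors.card / 64 ^ u := by
    have h1 : (Y.card : ℝ) * ((K : ℝ) ^ 2 * J.card / (2 * N)) ≤
        (K : ℝ) * (64 ^ (v + u) * (2 ^ (64 * u) * (Hv m T).card) +
        N.divisors.card * 64 ^ v * 2 ^ m) := by
      calc (Y.card : ℝ) * ((K : ℝ) ^ 2 * J.card / (2 * N))
          = ∑ d ∈ Y, (K : ℝ) ^ 2 * J.card / (2 * N) := by rw [sum_const, nsmul_eq_mul]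
        _ ≤ ∑ d ∈ Y, (Rh J K T d : ℝ) := by
            apply sum_le_sum
            intro d hd
            rw [hY, mem_sdiff] at hd
            have h2 : |(N : ℝ) * (Rc J K d : ℝ) - (K : ℝ) ^ 2 * J.card| <
                (K : ℝ) ^ 2 * J.card / 2 := by
              by_contra h3
              apply hd.2
              rw [hX]
              exact mem_filter.mpr ⟨mem_univ _, not_lt.mp h3⟩
            have h3 := (abs_lt.mp h2).1
            have h4 : (Rc J K d : ℝ) ≤ Rh J K T d := by exact_mod_cast hRh d hd.1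
            refine le_trans ?_ h4
            rw [div_le_iff₀ (by positivity)]
            linarith
        _ ≤ ∑ d : ZMod N, (Rh J K T d : ℝ) := by
            apply sum_le_sum_of_subset_of_nonneg (subset_univ _)
            intro d _ _
            positivity
        _ ≤ _ := by exact_mod_cast hfm
    rw [hJc, hK2] at h1
    have h64 : (0 : ℝ) < 64 ^ u := by positivity
    have h64v : (0 : ℝ) < 64 ^ v := by positivity
    have h2 : (Y.card : ℝ) ≤ ((K : ℝ) * (64 ^ (v + u) * (2 ^ (64 * u) * (Hv m T).card) +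
        N.divisors.card * 64 ^ v * (2 * K))) / ((K : ℝ) ^ 2 * 64 ^ (v + u) / (2 * N)) :=
      (le_div_iff₀ (by positivity)).mpr h1
    refine h2.trans (le_of_eq ?_)
    rw [pow_add]
    field_simp
    ring
  have hsub : Bad N s ⊆ X ∪ Y := by
    intro d hd
    rw [mem_union, hY, mem_sdiff]
    by_cases h : d ∈ X
    · exact Or.inl h
    · exact Or.inr ⟨hd, h⟩
  calc ((Bad N s).card : ℝ) ≤ ((X ∪ Y).card : ℝ) := by exact_mod_cast card_le_card hsub
    _ ≤ (X.card : ℝ) + Y.card := by exact_mod_cast card_union_le X Y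
    _ ≤ _ := add_le_add hXc hYc

end Pool.Agent.AD
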