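import Pool.Agent.Lib_helper89.AD.Sol

/-!
# AD (MP_85e36e_co): the second moment

For a set `J` of residues and the window `[0, K) + [0, K)` the number of solutions of
`a + b + d j = 0` is close to its mean value for most `d`.
-/

set_option autoImplicit false

namespace Pool.Agent.AD

open Finset

variable {N : ℕ} [NeZero N]

/-- the number of solutions of `a + b + d j = 0`, `j ∈ J`, `a, b < K` -/
def Rc (J : Finset ℕ) (K : ℕ) (d : ZMod N) : ℕ :=
  ((J ×ˢ (range K ×ˢ range K)).filter fun p : ℕ × ℕ × ℕ =>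
    ((p.2.1 + p.2.2 : ℕ) : ZMod N) + d * ((p.1 : ℕ) : ZMod N) = 0).card


/-- exponential sum over an initial segment -/
noncomputable def Ak (N K : ℕ) [NeZero N] (c : ZMod N) : ℂ :=
  ∑ a ∈ range K, (ZMod.stdAddChar (N := N)) (c * (a : ZMod N))

/-- exponential sum over `J` -/
noncomputable def Bj (N : ℕ) [NeZero N] (J : Finset ℕ) (t : ZMod N) : ℂ :=
  ∑ j ∈ J, (ZMod.stdAddChar (N := N)) (t * (j : ZMod N))

theorem orth (x : ZMod N) :
    ∑ c : ZMod N, (ZMod.stdAddChar (N := N)) (c * x) = if x = 0 then (N : ℂ) else 0 := by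
  have h := AddChar.sum_mulShift x (ZMod.isPrimitive_stdAddChar N)
  rw [h, ZMod.card]
  split_ifs <;> simp

theorem AB_expand (J : Finset ℕ) (K : ℕ) (c d : ZMod N) :
    Ak N K c ^ 2 * Bj N J (c * d) = ∑ p ∈ J ×ˢ (range K ×ˢ range K),
      (ZMod.stdAddChar (N := N))
        (c * (((p.2.1 + p.2.2 : ℕ) : ZMod N) + d * ((p.1 : ℕ) : ZMod N))) := by
  rw [Finset.sum_product]
  unfold Ak Bj
  rw [Finset.mul_sum]
  apply sum_congr rfl
  intro j _
  rw [Finset.sum_product, pow_two, Finset.sum_mul_sum, Finset.sum_mul]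
  apply sum_congr rfl
  intro a _
  rw [Finset.sum_mul]
  apply sum_congr rfl
  intro b _
  rw [← AddChar.map_add_eq_mul, ← AddChar.map_add_eq_mul]
  congr 1
  push_cast
  ring

theorem Rc_eq (J : Finset ℕ) (K : ℕ) (d : ZMod N) :
    (N : ℂ) * (Rc J K d : ℂ) = ∑ c : ZMod N, Ak N K c ^ 2 * Bj N J (c * d) := by
  simp only [AB_expand]
  rw [sum_comm]
  simp only [orth]
  rw [← sum_filter, sum_const, nsmul_eq_mul, mul_comm]
  rfl

theorem Ak_zero (K : ℕ) : Ak N K 0 = K := by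
  unfold Ak
  simp

theorem Bj_zero (J : Finset ℕ) : Bj N J 0 = J.card := by
  unfold Bj
  simp

theorem err_eq (J : Finset ℕ) (K : ℕ) (d : ZMod N) :
    ((((N : ℝ) * (Rc J K d : ℝ) - (K : ℝ) ^ 2 * J.card : ℝ)) : ℂ) =
      ∑ c ∈ univ.erase (0 : ZMod N), Ak N K c ^ 2 * Bj N J (c * d) := by
  have h1 := Rc_eq J K d
  rw [← Finset.add_sum_erase _ _ (mem_univ (0 : ZMod N)), zero_mul, Ak_zero, Bj_zero] at h1
  push_cast
  rw [h1]
  ring

theorem norm_sq_Ak (K : ℕ) (c : ZMod N) :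
    ((‖Ak N K c‖ ^ 2 : ℝ) : ℂ) = ∑ a ∈ range K, ∑ b ∈ range K,
      (ZMod.stdAddChar (N := N)) (c * ((((a : ℤ) - (b : ℤ) : ℤ)) : ZMod N)) := by
  have h : ((‖Ak N K c‖ ^ 2 : ℝ) : ℂ) = Ak N K c * (starRingEnd ℂ) (Ak N K c) := by
    rw [Complex.mul_conj, Complex.normSq_eq_norm_sq]
  rw [h]
  unfold Ak
  rw [map_sum, Finset.sum_mul_sum]
  apply sum_congr rfl
  intro a _
  apply sum_congr rfl
  intro b _
  rw [← AddChar.map_neg_eq_conj, ← AddChar.map_add_eq_mul]
  congr 1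
  push_cast
  ring

theorem norm_sq_Bj (J : Finset ℕ) (t : ZMod N) :
    ((‖Bj N J t‖ ^ 2 : ℝ) : ℂ) = ∑ i ∈ J, ∑ j ∈ J,
      (ZMod.stdAddChar (N := N)) (t * ((i : ZMod N) - (j : ZMod N))) := by
  have h : ((‖Bj N J t‖ ^ 2 : ℝ) : ℂ) = Bj N J t * (starRingEnd ℂ) (Bj N J t) := by
    rw [Complex.mul_conj, Complex.normSq_eq_norm_sq]
  rw [h]
  unfold Bj
  rw [map_sum, Finset.sum_mul_sum]
  apply sum_congr rfl
  intro a _
  apply sum_congr rfl
  intro b _
  rw [← AddChar.map_neg_eq_conj, ← AddChar.map_add_eq_mul]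
  congr 1
  ring

theorem sum_Bj (J : Finset ℕ) (c : ZMod N) :
    ∑ d : ZMod N, ‖Bj N J (c * d)‖ ^ 2 =
      (N : ℝ) * ∑ i ∈ J, ∑ j ∈ J, if c * ((i : ZMod N) - (j : ZMod N)) = 0 then (1 : ℝ) else 0 := by
  have h : ((∑ d : ZMod N, ‖Bj N J (c * d)‖ ^ 2 : ℝ) : ℂ) =
      (((N : ℝ) * ∑ i ∈ J, ∑ j ∈ J,
        if c * ((i : ZMod N) - (j : ZMod N)) = 0 then (1 : ℝ) else 0 : ℝ) : ℂ) := by
    rw [Complex.ofReal_sum]
    simp only [norm_sq_Bj]
    rw [sum_comm]
    push_cast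
    rw [mul_sum]
    apply sum_congr rfl
    intro i _
    rw [sum_comm, mul_sum]
    apply sum_congr rfl
    intro j _
    have e : ∀ d : ZMod N, c * d * ((i : ZMod N) - (j : ZMod N)) =
        d * (c * ((i : ZMod N) - (j : ZMod N))) := fun d => by ring
    simp only [e]
    rw [orth]
    split_ifs <;> simp
  exact_mod_cast h

/-- sums of a character over the annihilator of `x` -/
theorem sum_ann (x y : ZMod N) :
    ∑ c ∈ univ.filter (fun c : ZMod N => c * x = 0), (ZMod.stdAddChar (N := N)) (c * y) =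
      ((univ.filter fun t : ZMod N => y + t * x = 0).card : ℂ) := by
  have hN : (N : ℂ) ≠ 0 := by exact_mod_cast NeZero.ne N
  have h1 : ∑ t : ZMod N, ∑ c : ZMod N, (ZMod.stdAddChar (N := N)) (c * (y + t * x)) =
      (N : ℂ) * ((univ.filter fun t : ZMod N => y + t * x = 0).card : ℂ) := by
    simp only [orth]
    rw [← sum_filter, sum_const, nsmul_eq_mul, mul_comm]
  have h2 : ∑ t : ZMod N, ∑ c : ZMod N, (ZMod.stdAddChar (N := N)) (c * (y + t * x)) =
      (N : ℂ) * ∑ c ∈ univ.filter (fun c : ZMod N => c * x = 0),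
        (ZMod.stdAddChar (N := N)) (c * y) := by
    rw [sum_comm, sum_filter, mul_sum]
    apply sum_congr rfl
    intro c _
    have e : ∀ t : ZMod N, (ZMod.stdAddChar (N := N)) (c * (y + t * x)) =
        (ZMod.stdAddChar (N := N)) (c * y) * (ZMod.stdAddChar (N := N)) (t * (c * x)) := by
      intro t
      rw [← AddChar.map_add_eq_mul]
      congr 1
      ring
    simp only [e]
    rw [← mul_sum, orth]
    split_ifs <;> ring
  rw [h1] at h2
  exact (mul_left_cancel₀ hN h2).symm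

theorem sum_Ak_ann (K x : ℕ) :
    ∑ c ∈ (univ.filter (fun c : ZMod N => c * (x : ZMod N) = 0)).erase 0, ‖Ak N K c‖ ^ 2 ≤
      (Nat.gcd x N : ℝ) * K := by
  have hN : 0 < N := Nat.pos_of_ne_zero (NeZero.ne N)
  obtain ⟨g, hg⟩ : ∃ g, g = Nat.gcd x N := ⟨_, rfl⟩
  have hg0 : 0 < g := hg ▸ Nat.gcd_pos_of_pos_right x hN
  have h0 : (0 : ZMod N) ∈ univ.filter (fun c : ZMod N => c * (x : ZMod N) = 0) := by simp
  have h1 : (((∑ c ∈ univ.filter (fun c : ZMod N => c * (x : ZMod N) = 0), ‖Ak N K c‖ ^ 2 : ℝ)) : ℂ) =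
      ((∑ a ∈ range K, ∑ b ∈ range K,
        ((univ.filter fun t : ZMod N => ((((a : ℤ) - (b : ℤ) : ℤ)) : ZMod N) +
          t * (x : ZMod N) = 0).card : ℝ) : ℝ) : ℂ) := by
    rw [Complex.ofReal_sum]
    simp only [norm_sq_Ak]
    rw [sum_comm]
    push_cast
    apply sum_congr rfl
    intro a _
    rw [sum_comm]
    apply sum_congr rfl
    intro b _
    have := sum_ann (x : ZMod N) ((((a : ℤ) - (b : ℤ) : ℤ)) : ZMod N)
    push_cast at this
    exact this
  have h2 : ∑ c ∈ univ.filter (fun c : ZMod N => c * (x : ZMod N) = 0), ‖Ak N K c‖ ^ 2 =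
      ∑ a ∈ range K, ∑ b ∈ range K,
        ((univ.filter fun t : ZMod N => ((((a : ℤ) - (b : ℤ) : ℤ)) : ZMod N) +
          t * (x : ZMod N) = 0).card : ℝ) := by exact_mod_cast h1
  have h3 : ∀ a ∈ range K, ∑ b ∈ range K,
        ((univ.filter fun t : ZMod N => ((((a : ℤ) - (b : ℤ) : ℤ)) : ZMod N) +
          t * (x : ZMod N) = 0).card : ℝ) ≤ (K : ℝ) + g := by
    intro a _
    have h4 : ∀ b ∈ range K, (univ.filter fun t : ZMod N => ((((a : ℤ) - (b : ℤ) : ℤ)) : ZMod N) +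
          t * (x : ZMod N) = 0).card ≤ if (g : ℤ) ∣ (a : ℤ) - (b : ℤ) then g else 0 := by
      intro b _
      split_ifs with hd
      · rw [hg]
        exact sol_card x _
      · rw [Nat.le_zero, card_eq_zero, filter_eq_empty_iff]
        intro t _ ht
        apply hd
        rw [hg]
        exact sol_dvd x _ t ht
    have h5 : ∑ b ∈ range K, (univ.filter fun t : ZMod N => ((((a : ℤ) - (b : ℤ) : ℤ)) : ZMod N) +
          t * (x : ZMod N) = 0).card ≤ K + g := by
      refine (sum_le_sum h4).trans ?_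
      rw [← sum_filter, sum_const, smul_eq_mul]
      calc _ ≤ (K / g + 1) * g := Nat.mul_le_mul_right _ (mult_card g K hg0 a)
        _ = K / g * g + g := by ring
        _ ≤ K + g := Nat.add_le_add_right (Nat.div_mul_le_self K g) g
    exact_mod_cast h5
  have h6 : ∑ c ∈ univ.filter (fun c : ZMod N => c * (x : ZMod N) = 0), ‖Ak N K c‖ ^ 2 ≤
      (K : ℝ) * (K + g) := by
    rw [h2]
    refine (sum_le_sum h3).trans ?_
    rw [sum_const, card_range, nsmul_eq_mul]
  rw [← Finset.add_sum_erase _ _ h0, Ak_zero, Complex.norm_natCast] at h6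
  rw [← hg]
  nlinarith [h6]

theorem second_moment (J : Finset ℕ) (hJ : ∀ j ∈ J, j < N) (K : ℕ) :
    ∑ d : ZMod N, ((N : ℝ) * (Rc J K d : ℝ) - (K : ℝ) ^ 2 * J.card) ^ 2 ≤
      (N : ℝ) ^ 3 * (K : ℝ) ^ 2 * J.card * N.divisors.card := by
  classical
  have hN : 0 < N := Nat.pos_of_ne_zero (NeZero.ne N)
  -- Cauchy-Schwarz
  have hA : ∑ c ∈ univ.erase (0 : ZMod N), ‖Ak N K c‖ ^ 2 ≤ (N : ℝ) * K := by
    have h := sum_Ak_ann (N := N) K 0
    simp only [Nat.cast_zero, mul_zero, Nat.gcd_zero_left] at h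
    simpa using h
  have h1 : ∀ d : ZMod N, ((N : ℝ) * (Rc J K d : ℝ) - (K : ℝ) ^ 2 * J.card) ^ 2 ≤
      (N : ℝ) * K * ∑ c ∈ univ.erase (0 : ZMod N), ‖Ak N K c‖ ^ 2 * ‖Bj N J (c * d)‖ ^ 2 := by
    intro d
    have e1 : |(N : ℝ) * (Rc J K d : ℝ) - (K : ℝ) ^ 2 * J.card| =
        ‖∑ c ∈ univ.erase (0 : ZMod N), Ak N K c ^ 2 * Bj N J (c * d)‖ := by
      rw [← err_eq, Complex.norm_real, Real.norm_eq_abs]
    rw [← sq_abs, e1]
    have e2 : ‖∑ c ∈ univ.erase (0 : ZMod N), Ak N K c ^ 2 * Bj N J (c * d)‖ ≤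
        ∑ c ∈ univ.erase (0 : ZMod N), ‖Ak N K c‖ * (‖Ak N K c‖ * ‖Bj N J (c * d)‖) := by
      refine (norm_sum_le _ _).trans (le_of_eq ?_)
      apply sum_congr rfl
      intro c _
      rw [norm_mul, norm_pow]
      ring
    calc ‖∑ c ∈ univ.erase (0 : ZMod N), Ak N K c ^ 2 * Bj N J (c * d)‖ ^ 2
        ≤ (∑ c ∈ univ.erase (0 : ZMod N), ‖Ak N K c‖ * (‖Ak N K c‖ * ‖Bj N J (c * d)‖)) ^ 2 :=
          pow_le_pow_left₀ (norm_nonneg _) e2 2
      _ ≤ (∑ c ∈ univ.erase (0 : ZMod N), ‖Ak N K c‖ ^ 2) *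
          ∑ c ∈ univ.erase (0 : ZMod N), (‖Ak N K c‖ * ‖Bj N J (c * d)‖) ^ 2 :=
          Finset.sum_mul_sq_le_sq_mul_sq _ _ _
      _ ≤ (N : ℝ) * K * ∑ c ∈ univ.erase (0 : ZMod N), (‖Ak N K c‖ * ‖Bj N J (c * d)‖) ^ 2 := by
          apply mul_le_mul_of_nonneg_right hA
          positivity
      _ = _ := by
          congr 1
          apply sum_congr rfl
          intro c _
          ring
  calc ∑ d : ZMod N, ((N : ℝ) * (Rc J K d : ℝ) - (K : ℝ) ^ 2 * J.card) ^ 2
      ≤ ∑ d : ZMod N, (N : ℝ) * K * ∑ c ∈ univ.erase (0 : ZMod N),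
          ‖Ak N K c‖ ^ 2 * ‖Bj N J (c * d)‖ ^ 2 := sum_le_sum fun d _ => h1 d
    _ = (N : ℝ) * K * ∑ c ∈ univ.erase (0 : ZMod N), ‖Ak N K c‖ ^ 2 *
          ((N : ℝ) * ∑ i ∈ J, ∑ j ∈ J,
            if c * ((i : ZMod N) - (j : ZMod N)) = 0 then (1 : ℝ) else 0) := by
        rw [← mul_sum, sum_comm]
        congr 1
        apply sum_congr rfl
        intro c _
        rw [← mul_sum, sum_Bj]
    _ = (N : ℝ) ^ 2 * K * ∑ i ∈ J, ∑ j ∈ J, ∑ c ∈ univ.erase (0 : ZMod N),
          ‖Ak N K c‖ ^ 2 * (if c * ((i : ZMod N) - (j : ZMod N)) = 0 then (1 : ℝ) else 0) := by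
        have e : ∀ c : ZMod N, ‖Ak N K c‖ ^ 2 * ((N : ℝ) * ∑ i ∈ J, ∑ j ∈ J,
            if c * ((i : ZMod N) - (j : ZMod N)) = 0 then (1 : ℝ) else 0) =
            (N : ℝ) * ∑ i ∈ J, ∑ j ∈ J, ‖Ak N K c‖ ^ 2 *
              (if c * ((i : ZMod N) - (j : ZMod N)) = 0 then (1 : ℝ) else 0) := by
          intro c
          simp only [mul_sum]
          apply sum_congr rfl
          intro i _
          apply sum_congr rfl
          intro j _
          ring
        simp only [e]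
        rw [← mul_sum, sum_comm]
        have e2 : ∀ i ∈ J, ∑ c ∈ univ.erase (0 : ZMod N), ∑ j ∈ J, ‖Ak N K c‖ ^ 2 *
              (if c * ((i : ZMod N) - (j : ZMod N)) = 0 then (1 : ℝ) else 0) =
            ∑ j ∈ J, ∑ c ∈ univ.erase (0 : ZMod N), ‖Ak N K c‖ ^ 2 *
              (if c * ((i : ZMod N) - (j : ZMod N)) = 0 then (1 : ℝ) else 0) :=
          fun i _ => sum_comm
        rw [sum_congr rfl e2]
        ring
    _ ≤ (N : ℝ) ^ 2 * K * ∑ i ∈ J, ∑ j ∈ J,
          (Nat.gcd ((i : ZMod N) - (j : ZMod N)).val N : ℝ) * K := by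
        apply mul_le_mul_of_nonneg_left _ (by positivity)
        apply sum_le_sum
        intro i _
        apply sum_le_sum
        intro j _
        have h := sum_Ak_ann (N := N) K ((i : ZMod N) - (j : ZMod N)).val
        rw [ZMod.natCast_zmod_val] at h
        refine le_trans (le_of_eq ?_) h
        have e3 : (univ.filter (fun c : ZMod N => c * ((i : ZMod N) - (j : ZMod N)) = 0)).erase 0 =
            (univ.erase (0 : ZMod N)).filter (fun c => c * ((i : ZMod N) - (j : ZMod N)) = 0) := by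
          ext c
          simp [and_comm]
        rw [e3, sum_filter]
        apply sum_congr rfl
        intro c _
        split_ifs <;> simp
    _ ≤ (N : ℝ) ^ 2 * K * ∑ i ∈ J, ((N * N.divisors.card : ℕ) : ℝ) * K := by
        apply mul_le_mul_of_nonneg_left _ (by positivity)
        apply sum_le_sum
        intro i _
        rw [← sum_mul]
        apply mul_le_mul_of_nonneg_right _ (by positivity)
        have h2 : ∑ j ∈ J, Nat.gcd ((i : ZMod N) - (j : ZMod N)).val N ≤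
            ∑ x ∈ range N, Nat.gcd x N := by
          have hinj : Set.InjOn (fun j : ℕ => ((i : ZMod N) - (j : ZMod N)).val) (J : Set ℕ) := by
            intro j hj j' hj' e
            have e1 : (i : ZMod N) - (j : ZMod N) = (i : ZMod N) - (j' : ZMod N) :=
              ZMod.val_injective N e
            have e2 : (j : ZMod N) = (j' : ZMod N) := sub_right_injective e1
            have e3 := (ZMod.natCast_eq_natCast_iff' j j' N).mp e2
            rwa [Nat.mod_eq_of_lt (hJ j hj), Nat.mod_eq_of_lt (hJ j' hj')] at e3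
          rw [← sum_image (f := fun x => Nat.gcd x N) hinj]
          apply sum_le_sum_of_subset
          intro x hx
          obtain ⟨j, _, rfl⟩ := mem_image.mp hx
          exact mem_range.mpr (ZMod.val_lt _)
        exact_mod_cast h2.trans (sum_gcd_le N hN)
    _ = (N : ℝ) ^ 3 * (K : ℝ) ^ 2 * J.card * N.divisors.card := by
        rw [sum_const, nsmul_eq_mul]
        push_cast
        ring

end Pool.Agent.AD
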