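import Pool.Agent.Lib_helper89.AD.First
import Pool.Agent.Lib_helper61.FG.DivB

/-!
# AD (MP_85e36e_co): the numerical part
-/

set_option autoImplicit false

namespace Pool.Agent.AD

open Finset Pool.Agent.TV

theorem Hv_bound {m T : ℕ} (hT : 101 * m ≤ 200 * T) :
    ((Hv m T).card : ℝ) ≤ 2 ^ m * (2 : ℝ) ^ (-(m : ℝ) / 16200) := by
  obtain ⟨x, hx⟩ : ∃ x : ℝ, x = (Hv m T).card / 2 ^ m := ⟨_, rfl⟩
  have hx0 : 0 ≤ x := by rw [hx]; positivity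
  have hH : ((Hv m T).card : ℝ) = 2 ^ m * x := by
    rw [hx, mul_div_cancel₀]
    positivity
  rw [hH]
  refine mul_le_mul_of_nonneg_left ?_ (by positivity)
  have h1 : x * (51 / 50) ^ T ≤ (101 / 100) ^ m := by
    have h := heavy_card (51 / 50) (by norm_num) m T
    have e : (((range (2 ^ m)).filter fun z => T ≤ bw z).card : ℝ) = 2 ^ m * x := hH
    rw [e] at h
    have e2 : (1 + 51 / 50 : ℝ) ^ m = 2 ^ m * (101 / 100) ^ m := by
      rw [← mul_pow]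
      norm_num
    rw [e2, mul_assoc] at h
    exact le_of_mul_le_mul_left h (by positivity)
  have h2 : x ^ 200 * ((51 / 50 : ℝ) ^ 101) ^ m ≤ ((101 / 100 : ℝ) ^ 200) ^ m := by
    calc x ^ 200 * ((51 / 50 : ℝ) ^ 101) ^ m ≤ x ^ 200 * ((51 / 50 : ℝ) ^ T) ^ 200 := by
          refine mul_le_mul_of_nonneg_left ?_ (by positivity)
          rw [← pow_mul, ← pow_mul]
          exact pow_le_pow_right₀ (by norm_num) (by omega)
      _ = (x * (51 / 50) ^ T) ^ 200 := by rw [mul_pow]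
      _ ≤ ((101 / 100) ^ m) ^ 200 := pow_le_pow_left₀ (by positivity) h1 _
      _ = ((101 / 100 : ℝ) ^ 200) ^ m := by rw [← pow_mul, ← pow_mul, mul_comm]
  have h3 : (101 / 100 : ℝ) ^ 200 ≤ (5000 / 5043) * (51 / 50) ^ 101 := by norm_num
  have h4 : x ^ 200 ≤ (5000 / 5043 : ℝ) ^ m := by
    have h5 : x ^ 200 * ((51 / 50 : ℝ) ^ 101) ^ m ≤
        (5000 / 5043 : ℝ) ^ m * ((51 / 50 : ℝ) ^ 101) ^ m := by
      refine h2.trans ?_
      rw [← mul_pow]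
      exact pow_le_pow_left₀ (by positivity) h3 _
    exact le_of_mul_le_mul_right h5 (by positivity)
  have h5 : (5000 / 5043 : ℝ) ^ 81 ≤ 1 / 2 := by norm_num
  have h6 : x ^ (200 * 81) ≤ (1 / 2 : ℝ) ^ m := by
    calc x ^ (200 * 81) = (x ^ 200) ^ 81 := by rw [pow_mul]
      _ ≤ ((5000 / 5043 : ℝ) ^ m) ^ 81 := pow_le_pow_left₀ (by positivity) h4 _
      _ = ((5000 / 5043 : ℝ) ^ 81) ^ m := by rw [← pow_mul, ← pow_mul, mul_comm]
      _ ≤ (1 / 2 : ℝ) ^ m := pow_le_pow_left₀ (by positivity) h5 _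
  have h7 : ((2 : ℝ) ^ (-(m : ℝ) / 16200)) ^ (200 * 81) = (1 / 2 : ℝ) ^ m := by
    rw [← Real.rpow_natCast, ← Real.rpow_mul (by norm_num)]
    have : -(m : ℝ) / 16200 * ((200 * 81 : ℕ) : ℝ) = -(m : ℝ) := by push_cast; ring
    rw [this, Real.rpow_neg (by norm_num), Real.rpow_natCast, one_div, inv_pow]
  rw [← h7] at h6
  exact (pow_le_pow_iff_left₀ hx0 (by positivity) (by norm_num)).mp h6

theorem le_divisors_mul_totient {N : ℕ} (hN : 0 < N) :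
    N ≤ N.divisors.card * Nat.totient N := by
  calc N = ∑ d ∈ N.divisors, Nat.totient d := (Nat.sum_totient N).symm
    _ ≤ ∑ d ∈ N.divisors, Nat.totient N := by
        apply sum_le_sum
        intro d hd
        exact Nat.le_of_dvd (Nat.totient_pos.mpr hN)
          (Nat.totient_dvd_of_dvd (Nat.dvd_of_mem_divisors hd))
    _ = N.divisors.card * Nat.totient N := by rw [sum_const, smul_eq_mul]

theorem bad_small : ∃ n₀ : ℕ, 10000 ≤ n₀ ∧ ∀ n : ℕ, n₀ ≤ n → ∀ s : ℕ, 499 * n / 1000 ≤ s →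
    ∀ (N : ℕ) [NeZero N], N = 2 ^ n - 1 → ((Bad N s).card : ℝ) ≤
      (2 : ℝ) ^ (-(n : ℝ) / 2 ^ 21) * Nat.totient N := by
  obtain ⟨C, hC, hdiv⟩ := Pool.Agent.FG61.divisor_bound (ε := 1 / 2 ^ 21) (by positivity)
  obtain ⟨L, hL⟩ : ∃ L : ℝ, L = Real.logb 2 (C ^ 2 * 2 ^ 11) := ⟨_, rfl⟩
  have hL2 : (2 : ℝ) ^ L = C ^ 2 * 2 ^ 11 := by
    rw [hL]
    exact Real.rpow_logb (by norm_num) (by norm_num) (by positivity)
  refine ⟨⌈2 ^ 21 * L⌉₊ + 10000, by omega, ?_⟩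
  intro n hn s hs N inst hN
  have hn1 : 10000 ≤ n := by omega
  have hn2 : (10000 : ℝ) ≤ n := by exact_mod_cast hn1
  have hnL : 2 ^ 21 * L ≤ n := by
    calc 2 ^ 21 * L ≤ (⌈2 ^ 21 * L⌉₊ : ℝ) := Nat.le_ceil _
      _ ≤ n := by exact_mod_cast (by omega : ⌈2 ^ 21 * L⌉₊ ≤ n)
  have h2n : 1 < 2 ^ n := Nat.one_lt_two_pow (by omega)
  have hNpos : 0 < N := by omega
  have hN1 : (1 : ℝ) ≤ N := by exact_mod_cast hNpos
  have hNlt : (N : ℝ) ≤ 2 ^ (n : ℝ) := by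
    rw [Real.rpow_natCast]
    exact_mod_cast (by omega : N ≤ 2 ^ n)
  obtain ⟨w, hw⟩ : ∃ w, w = (n - 1) / 64 := ⟨_, rfl⟩
  obtain ⟨u, hu⟩ : ∃ u, u = n / 2 ^ 21 := ⟨_, rfl⟩
  obtain ⟨v, hv⟩ : ∃ v, v = w - u := ⟨_, rfl⟩
  obtain ⟨r, hr⟩ : ∃ r, r = n / 23 := ⟨_, rfl⟩
  obtain ⟨m, hm⟩ : ∃ m, m = n - r := ⟨_, rfl⟩
  obtain ⟨T, hT⟩ : ∃ T, T = 101 * m / 200 + 1 := ⟨_, rfl⟩
  have hvu : v + u = w := by omega
  have h64 : 2 ^ (64 * (v + u)) ≤ N := by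
    have h1 : 2 ^ (64 * (v + u)) ≤ 2 ^ (n - 1) := Nat.pow_le_pow_right (by norm_num) (by omega)
    have h2 : 2 ^ (n - 1) + 2 ^ (n - 1) = 2 ^ n := by
      rw [← two_mul, ← pow_succ']
      congr 1
      omega
    have h3 : 1 ≤ 2 ^ (n - 1) := Nat.one_le_two_pow
    omega
  have hb := bad_card (N := N) u v m T s (by omega) (by omega) (by omega) h64 (by omega)
  obtain ⟨τ, hτ⟩ : ∃ τ : ℝ, τ = N.divisors.card := ⟨_, rfl⟩
  obtain ⟨φ, hφ⟩ : ∃ φ : ℝ, φ = Nat.totient N := ⟨_, rfl⟩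
  have hτ1 : 1 ≤ τ := by
    rw [hτ]
    have h0 : 0 < N.divisors.card :=
      Finset.card_pos.mpr ⟨1, Nat.one_mem_divisors.mpr hNpos.ne'⟩
    exact_mod_cast h0
  have hNφ : (N : ℝ) ≤ τ * φ := by
    rw [hτ, hφ]
    exact_mod_cast le_divisors_mul_totient hNpos
  have hτC : τ ≤ C * 2 ^ ((n : ℝ) / 2 ^ 21) := by
    rw [hτ]
    refine (hdiv N hNpos).trans (mul_le_mul_of_nonneg_left ?_ hC.le)
    calc (N : ℝ) ^ ((1 : ℝ) / 2 ^ 21) ≤ ((2 : ℝ) ^ (n : ℝ)) ^ ((1 : ℝ) / 2 ^ 21) :=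
          Real.rpow_le_rpow (by positivity) hNlt (by positivity)
      _ = 2 ^ ((n : ℝ) / 2 ^ 21) := by
          rw [← Real.rpow_mul (by norm_num)]
          congr 1
          ring
  rw [← hτ] at hb
  rw [← hφ]
  -- real parameters
  have hmr : (m : ℝ) = n - r := by
    rw [hm, Nat.cast_sub (by omega)]
  have hr1 : (r : ℝ) ≤ n / 23 := by
    rw [le_div_iff₀ (by norm_num)]
    exact_mod_cast (by omega : r * 23 ≤ n)
  have hw1 : (n : ℝ) / 64 - 1 ≤ w := by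
    have h1 : (n : ℝ) ≤ 64 * w + 64 := by exact_mod_cast (by omega : n ≤ 64 * w + 64)
    linarith
  have hu1 : (n : ℝ) / 2 ^ 21 - 1 ≤ u := by
    have h1 : (n : ℝ) ≤ 2 ^ 21 * u + 2 ^ 21 := by
      exact_mod_cast (by omega : n ≤ 2 ^ 21 * u + 2 ^ 21)
    linarith
  have hu2 : (u : ℝ) ≤ n / 2 ^ 21 := by
    rw [le_div_iff₀ (by norm_num)]
    exact_mod_cast (by omega : u * 2 ^ 21 ≤ n)
  have hKm : (2 : ℝ) ^ (m - 1) = 2 ^ ((m : ℝ) - 1) := by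
    rw [← Real.rpow_natCast, Nat.cast_sub (by omega)]
    norm_num
  have h64r : ∀ k : ℕ, (64 : ℝ) ^ k = 2 ^ (6 * (k : ℝ)) := by
    intro k
    rw [Real.rpow_mul (by norm_num), Real.rpow_natCast]
    norm_num
  -- term A
  have hA : 4 * (N : ℝ) ^ 3 * τ / ((2 : ℝ) ^ (m - 1) ) ^ 2 / 64 ^ (v + u) ≤
      N * τ * 2 ^ (10 - 6 * (n : ℝ) / 2 ^ 21) := by
    have e1 : ((2 : ℝ) ^ (m - 1)) ^ 2 = 2 ^ (2 * ((m : ℝ) - 1)) := by
      rw [hKm, ← Real.rpow_natCast, ← Real.rpow_mul (by norm_num)]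
      congr 1
      push_cast
      ring
    rw [e1, h64r, hvu]
    have e2 : (N : ℝ) ^ 3 ≤ N * 2 ^ (2 * (n : ℝ)) := by
      calc (N : ℝ) ^ 3 = N * (N : ℝ) ^ 2 := by ring
        _ ≤ N * ((2 : ℝ) ^ (n : ℝ)) ^ 2 :=
            mul_le_mul_of_nonneg_left (pow_le_pow_left₀ (by positivity) hNlt _) (by positivity)
        _ = N * 2 ^ (2 * (n : ℝ)) := by
            congr 1
            rw [← Real.rpow_natCast, ← Real.rpow_mul (by norm_num)]
            congr 1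
            push_cast
            ring
    rw [div_div, ← Real.rpow_add (by norm_num), div_le_iff₀ (by positivity)]
    calc 4 * (N : ℝ) ^ 3 * τ ≤ 4 * (N * 2 ^ (2 * (n : ℝ))) * τ := by
          refine mul_le_mul_of_nonneg_right (mul_le_mul_of_nonneg_left e2 (by norm_num)) ?_
          linarith
      _ = N * τ * (2 ^ (2 : ℝ) * 2 ^ (2 * (n : ℝ))) := by norm_num; ring
      _ = N * τ * 2 ^ (2 + 2 * (n : ℝ)) := by rw [Real.rpow_add (by norm_num)]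
      _ ≤ N * τ * 2 ^ ((10 - 6 * (n : ℝ) / 2 ^ 21) + (2 * ((m : ℝ) - 1) + 6 * (w : ℝ))) := by
          refine mul_le_mul_of_nonneg_left ?_ (by positivity)
          refine Real.rpow_le_rpow_of_exponent_le (by norm_num) ?_
          rw [hmr]
          have : 6 * (n : ℝ) / 2 ^ 21 = n * (6 / 2 ^ 21) := by ring
          rw [this]
          norm_num
          linarith
      _ = _ := by rw [Real.rpow_add (by norm_num)]; ring
  have hB : 2 * (N : ℝ) * 2 ^ (64 * u) * (Hv m T).card / 2 ^ (m - 1) ≤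
      N * τ * 2 ^ (2 - 6 * (n : ℝ) / 2 ^ 21) := by
    have e1 := Hv_bound (m := m) (T := T) (by omega)
    rw [div_le_iff₀ (by positivity)]
    have e2 : (2 : ℝ) ^ m = 2 * 2 ^ (m - 1) := by
      rw [← pow_succ']
      congr 1
      omega
    have e3 : (2 : ℝ) ^ (64 * u) = 2 ^ (64 * (u : ℝ)) := by
      rw [← Real.rpow_natCast]
      congr 1
      push_cast
      ring
    calc 2 * (N : ℝ) * 2 ^ (64 * u) * (Hv m T).card
        ≤ 2 * (N : ℝ) * 2 ^ (64 * u) * (2 ^ m * (2 : ℝ) ^ (-(m : ℝ) / 16200)) :=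
          mul_le_mul_of_nonneg_left e1 (by positivity)
      _ = N * 1 * (2 ^ (2 : ℝ) * 2 ^ (64 * (u : ℝ)) * 2 ^ (-(m : ℝ) / 16200)) * 2 ^ (m - 1) := by
          rw [e2, e3]; norm_num; ring
      _ = N * 1 * 2 ^ (2 + 64 * (u : ℝ) + (-(m : ℝ) / 16200)) * 2 ^ (m - 1) := by
          rw [Real.rpow_add (by norm_num), Real.rpow_add (by norm_num)]
      _ ≤ N * τ * 2 ^ (2 - 6 * (n : ℝ) / 2 ^ 21) * 2 ^ (m - 1) := by
          refine mul_le_mul_of_nonneg_right ?_ (by positivity)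
          refine mul_le_mul (mul_le_mul_of_nonneg_left hτ1 (by positivity)) ?_ (by positivity)
            (by positivity)
          refine Real.rpow_le_rpow_of_exponent_le (by norm_num) ?_
          rw [hmr]
          norm_num at hu2 ⊢
          linarith
  have hCt : 4 * (N : ℝ) * τ / 64 ^ u ≤ N * τ * 2 ^ (8 - 6 * (n : ℝ) / 2 ^ 21) := by
    rw [h64r, div_le_iff₀ (by positivity)]
    calc 4 * (N : ℝ) * τ = N * τ * 2 ^ (2 : ℝ) := by norm_num; ring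
      _ ≤ N * τ * 2 ^ (8 - 6 * (n : ℝ) / 2 ^ 21 + 6 * (u : ℝ)) := by
          refine mul_le_mul_of_nonneg_left ?_ (by positivity)
          refine Real.rpow_le_rpow_of_exponent_le (by norm_num) ?_
          have : 6 * (n : ℝ) / 2 ^ 21 = 6 * (n / 2 ^ 21) := by ring
          rw [this]
          linarith
      _ = _ := by rw [Real.rpow_add (by norm_num)]; ring
  obtain ⟨y, hy⟩ : ∃ y : ℝ, y = 2 ^ (-(6 * (n : ℝ) / 2 ^ 21)) := ⟨_, rfl⟩
  have hy0 : 0 < y := by rw [hy]; positivity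
  have hsplit : ∀ k : ℕ, (2 : ℝ) ^ ((k : ℝ) - 6 * (n : ℝ) / 2 ^ 21) = 2 ^ k * y := by
    intro k
    rw [sub_eq_add_neg, Real.rpow_add (by norm_num), Real.rpow_natCast, hy]
  have hA' := hsplit 10
  have hB' := hsplit 2
  have hC' := hsplit 8
  push_cast at hA' hB' hC'
  rw [hA'] at hA
  rw [hB'] at hB
  rw [hC'] at hCt
  have hφ0 : 0 ≤ φ := by rw [hφ]; positivity
  have hτ0 : 0 ≤ τ := by linarith
  have hsum : ((Bad N s).card : ℝ) ≤ N * τ * (2 ^ 11 * y) := by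
    have h1 : 0 ≤ (N : ℝ) * τ * y := by positivity
    calc ((Bad N s).card : ℝ) ≤ N * τ * (2 ^ 10 * y) + (N * τ * (2 ^ 2 * y) + N * τ * (2 ^ 8 * y)) := by
          linarith
      _ ≤ N * τ * (2 ^ 11 * y) := by nlinarith
  calc ((Bad N s).card : ℝ) ≤ N * τ * (2 ^ 11 * y) := hsum
    _ ≤ (τ * φ) * τ * (2 ^ 11 * y) := by gcongr
    _ = τ ^ 2 * (2 ^ 11 * y) * φ := by ring
    _ ≤ (C * 2 ^ ((n : ℝ) / 2 ^ 21)) ^ 2 * (2 ^ 11 * y) * φ := by gcongr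
    _ = (C ^ 2 * 2 ^ 11) * (2 ^ ((n : ℝ) / 2 ^ 21)) ^ 2 * y * φ := by ring
    _ = 2 ^ L * 2 ^ (2 * ((n : ℝ) / 2 ^ 21)) * 2 ^ (-(6 * (n : ℝ) / 2 ^ 21)) * φ := by
        have e5 : ((2 : ℝ) ^ ((n : ℝ) / 2 ^ 21)) ^ 2 = 2 ^ (2 * ((n : ℝ) / 2 ^ 21)) := by
          rw [← Real.rpow_natCast ((2 : ℝ) ^ ((n : ℝ) / 2 ^ 21)) 2, ← Real.rpow_mul (by norm_num)]
          congr 1
          push_cast
          ring
        rw [hL2, hy, e5]
    _ = 2 ^ (L + 2 * ((n : ℝ) / 2 ^ 21) + -(6 * (n : ℝ) / 2 ^ 21)) * φ := by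
        rw [Real.rpow_add (by norm_num), Real.rpow_add (by norm_num)]
    _ ≤ 2 ^ (-(n : ℝ) / 2 ^ 21) * φ := by
        refine mul_le_mul_of_nonneg_right ?_ hφ0
        refine Real.rpow_le_rpow_of_exponent_le (by norm_num) ?_
        have h1 : L ≤ n / 2 ^ 21 := by
          rw [le_div_iff₀ (by norm_num)]
          linarith
        have h2 : 0 ≤ (n : ℝ) / 2 ^ 21 := by positivity
        have h3 : 6 * (n : ℝ) / 2 ^ 21 = 6 * (n / 2 ^ 21) := by ring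
        have h4 : -(n : ℝ) / 2 ^ 21 = - (n / 2 ^ 21) := by ring
        rw [h3, h4]
        linarith

end Pool.Agent.AD
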