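import Mathlib

/-!
# AD (MP_85e36e_co): linear congruences

Counting lemmas for `y + t x = 0` in `ZMod N`, and the sum of `gcd (x, N)`.
-/

set_option autoImplicit false

namespace Pool.Agent.AD

open Finset

variable {N : ℕ} [NeZero N]

theorem sol_dvd (x : ℕ) (y : ℤ) (t : ZMod N) (h : (y : ZMod N) + t * (x : ZMod N) = 0) :
    ((Nat.gcd x N : ℕ) : ℤ) ∣ y := by
  have h1 : (((y + (t.val : ℤ) * (x : ℤ) : ℤ)) : ZMod N) = 0 := by
    push_cast
    rw [ZMod.natCast_zmod_val]
    exact h
  have h2 : (N : ℤ) ∣ y + (t.val : ℤ) * (x : ℤ) := (ZMod.intCast_zmod_eq_zero_iff_dvd _ _).mp h1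
  have h3 : ((Nat.gcd x N : ℕ) : ℤ) ∣ (N : ℤ) := by exact_mod_cast Nat.gcd_dvd_right x N
  have h4 : ((Nat.gcd x N : ℕ) : ℤ) ∣ (t.val : ℤ) * (x : ℤ) :=
    Dvd.dvd.mul_left (by exact_mod_cast Nat.gcd_dvd_left x N) _
  exact (Int.dvd_add_left h4).mp (h3.trans h2)

theorem sol_card (x : ℕ) (y : ZMod N) :
    (univ.filter fun t : ZMod N => y + t * (x : ZMod N) = 0).card ≤ Nat.gcd x N := by
  classical
  have hN : 0 < N := Nat.pos_of_ne_zero (NeZero.ne N)
  obtain ⟨g, hg⟩ : ∃ g, g = Nat.gcd x N := ⟨_, rfl⟩
  have hg0 : 0 < g := hg ▸ Nat.gcd_pos_of_pos_right x hN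
  obtain ⟨M, hM⟩ : g ∣ N := hg ▸ Nat.gcd_dvd_right x N
  have hM0 : 0 < M := by
    rcases Nat.eq_zero_or_pos M with h | h
    · rw [h] at hM; omega
    · exact h
  rw [← hg]
  rcases (univ.filter fun t : ZMod N => y + t * (x : ZMod N) = 0).eq_empty_or_nonempty with he | he
  · rw [he]; simp
  obtain ⟨t0, ht0⟩ := he
  have ht0' := (mem_filter.mp ht0).2
  -- differences are killed by `x`
  have key : ∀ t : ZMod N, y + t * (x : ZMod N) = 0 → M ∣ (t - t0).val := by
    intro t ht
    have h1 : (t - t0) * (x : ZMod N) = 0 := by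
      have : (t - t0) * (x : ZMod N) = (y + t * x) - (y + t0 * x) := by ring
      rw [this, ht, ht0', sub_zero]
    have h2 : (((t - t0).val * x : ℕ) : ZMod N) = 0 := by
      push_cast
      rw [ZMod.natCast_zmod_val]
      exact h1
    have h3 : N ∣ (t - t0).val * x := (ZMod.natCast_eq_zero_iff _ _).mp h2
    obtain ⟨x', hx'⟩ : g ∣ x := hg ▸ Nat.gcd_dvd_left x N
    have h4 : g * M ∣ g * ((t - t0).val * x') := by
      have e : g * ((t - t0).val * x') = (t - t0).val * (g * x') := by ring
      rw [e, ← hx', ← hM]
      exact h3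
    have h5 : M ∣ (t - t0).val * x' := Nat.dvd_of_mul_dvd_mul_left hg0 h4
    have h6 : Nat.Coprime M x' := by
      have h7 : Nat.gcd (g * x') (g * M) = g := by rw [← hx', ← hM, ← hg]
      rw [Nat.gcd_mul_left] at h7
      have h8 : Nat.gcd x' M = 1 := by
        have : g * Nat.gcd x' M = g * 1 := by rw [h7, mul_one]
        exact Nat.eq_of_mul_eq_mul_left hg0 this
      exact Nat.coprime_comm.mp h8
    exact h6.dvd_of_dvd_mul_right h5
  calc (univ.filter fun t : ZMod N => y + t * (x : ZMod N) = 0).card
      ≤ (range g).card := by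
        apply Finset.card_le_card_of_injOn (fun t => (t - t0).val / M)
        · intro t ht
          have : (t - t0).val < g * M := by rw [← hM]; exact ZMod.val_lt _
          simp only [coe_range, Set.mem_Iio]
          exact (Nat.div_lt_iff_lt_mul hM0).mpr this
        · intro t ht t' ht' h
          have h1 := key t (mem_filter.mp (mem_coe.mp ht)).2
          have h2 := key t' (mem_filter.mp (mem_coe.mp ht')).2
          have h3 : (t - t0).val = (t' - t0).val := by
            rw [← Nat.div_mul_cancel h1, ← Nat.div_mul_cancel h2]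
            simp only at h
            rw [h]
          have h4 : t - t0 = t' - t0 := ZMod.val_injective N h3
          exact sub_left_injective h4
    _ = g := card_range g

theorem mult_card (h K : ℕ) (hh : 0 < h) (a : ℕ) :
    ((range K).filter fun b : ℕ => (h : ℤ) ∣ (a : ℤ) - (b : ℤ)).card ≤ K / h + 1 := by
  calc ((range K).filter fun b : ℕ => (h : ℤ) ∣ (a : ℤ) - (b : ℤ)).card ≤ (range (K / h + 1)).card := by
        apply Finset.card_le_card_of_injOn (fun b => b / h)
        · intro b hb
          have := mem_range.mp (mem_filter.mp (mem_coe.mp hb)).1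
          simp only [coe_range, Set.mem_Iio]
          have : b / h ≤ K / h := Nat.div_le_div_right this.le
          omega
        · intro b hb b' hb' e
          have h1 := (mem_filter.mp (mem_coe.mp hb)).2
          have h2 := (mem_filter.mp (mem_coe.mp hb')).2
          have h3 : (h : ℤ) ∣ (b : ℤ) - b' := by
            have : (b : ℤ) - b' = ((a : ℤ) - b') - ((a : ℤ) - b) := by ring
            rw [this]
            exact dvd_sub h2 h1
          have h4 : b' ≡ b [MOD h] := (Nat.modEq_iff_dvd).mpr h3
          have h5 : b' % h = b % h := h4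
          simp only at e
          rw [← Nat.div_add_mod b h, ← Nat.div_add_mod b' h, e, h5]
    _ = K / h + 1 := card_range _

/-- Pillai's sum -/
theorem sum_gcd_le (N : ℕ) (hN : 0 < N) :
    ∑ x ∈ range N, Nat.gcd x N ≤ N * N.divisors.card := by
  calc ∑ x ∈ range N, Nat.gcd x N
      ≤ ∑ x ∈ range N, ∑ h ∈ N.divisors, if h ∣ x then h else 0 := by
        apply sum_le_sum
        intro x _
        have h1 : Nat.gcd x N ∈ N.divisors := Nat.mem_divisors.mpr ⟨Nat.gcd_dvd_right x N, hN.ne'⟩
        calc Nat.gcd x N = if Nat.gcd x N ∣ x then Nat.gcd x N else 0 := by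
              rw [if_pos (Nat.gcd_dvd_left x N)]
          _ ≤ _ := single_le_sum (f := fun h => if h ∣ x then h else 0) (fun _ _ => Nat.zero_le _) h1
    _ = ∑ h ∈ N.divisors, ∑ x ∈ range N, if h ∣ x then h else 0 := sum_comm
    _ ≤ ∑ h ∈ N.divisors, N := by
        apply sum_le_sum
        intro h hh
        have hd := (Nat.mem_divisors.mp hh).1
        have hh0 : 0 < h := Nat.pos_of_dvd_of_pos hd hN
        rw [← sum_filter, sum_const, smul_eq_mul]
        have h1 : ((range N).filter fun x => h ∣ x).card ≤ N / h := by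
          calc ((range N).filter fun x => h ∣ x).card ≤ (range (N / h)).card := by
                apply Finset.card_le_card_of_injOn (fun b => b / h)
                · intro b hb
                  have := mem_range.mp (mem_filter.mp (mem_coe.mp hb)).1
                  simp only [coe_range, Set.mem_Iio]
                  rw [Nat.div_lt_iff_lt_mul hh0, Nat.div_mul_cancel hd]
                  exact this
                · intro b hb b' hb' e
                  have h1 := (mem_filter.mp (mem_coe.mp hb)).2
                  have h2 := (mem_filter.mp (mem_coe.mp hb')).2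
                  rw [← Nat.div_mul_cancel h1, ← Nat.div_mul_cancel h2]
                  simp only at e
                  rw [e]
            _ = N / h := card_range _
        calc _ ≤ N / h * h := Nat.mul_le_mul_right _ h1
          _ = N := Nat.div_mul_cancel hd
    _ = N * N.divisors.card := by rw [sum_const, smul_eq_mul, mul_comm]

end Pool.Agent.AD
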